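import Mathlib
import Pool.Agent.Lib.MP_e59edf_an.Main

/-!
# A one-sided subshift whose automorphism group contains a distortion element

We construct a one-sided subshift X over a finite alphabet, with surjective shift, an element g of
infinite order in Aut(X) and a finite set S of automorphisms such that g is in the subgroup generated
by S and the word norm of g^n is at most C n^α with α = log 348 / log 354 < 1. In particular g is a
distortion element, and the radius of g^n grows sublinearly.
-/

set_option autoImplicit false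

open Filter Topology E59

namespace Pool.Agent.Results.MP_e59edf_an.PowerDistortion

/-- The left shift on one-sided sequences. -/
def shift {A : Type} (x : ℕ → A) : ℕ → A := fun i => x (i + 1)

/-- One-sided subshifts: nonempty closed sets of one-sided sequences which the shift maps into
themselves. -/
structure IsSubshift {k : ℕ} (X : Set (ℕ → Fin k)) : Prop where
  nonempty : X.Nonempty
  closed : IsClosed X
  shift_mem : ∀ x ∈ X, shift x ∈ X

/-- The shift as a map from the subshift to itself. -/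
def shiftOn {k : ℕ} {X : Set (ℕ → Fin k)} (hX : IsSubshift X) (x : X) : X :=
  ⟨shift x.1, hX.shift_mem x.1 x.2⟩

/-- The automorphisms of a subshift: the homeomorphisms which commute with the shift. -/
structure Aut {k : ℕ} {X : Set (ℕ → Fin k)} (hX : IsSubshift X) where
  toHomeo : X ≃ₜ X
  comm : ∀ x : X, toHomeo (shiftOn hX x) = shiftOn hX (toHomeo x)

/-- An automorphism as a map. -/
def Aut.map {k : ℕ} {X : Set (ℕ → Fin k)} {hX : IsSubshift X} (f : Aut hX) : X → X := f.toHomeo

theorem Aut.map_comm {k : ℕ} {X : Set (ℕ → Fin k)} {hX : IsSubshift X} (f : Aut hX) (x : X) :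
    f.map (shiftOn hX x) = shiftOn hX (f.map x) := f.comm x

theorem Aut.ext_map {k : ℕ} {X : Set (ℕ → Fin k)} {hX : IsSubshift X} {f g : Aut hX}
    (h : ∀ x, f.map x = g.map x) : f = g := by
  obtain ⟨f, hf⟩ := f
  obtain ⟨g, hg⟩ := g
  have : f = g := Homeomorph.ext h
  subst this
  rfl

theorem Aut.mul_comm_shift {k : ℕ} {X : Set (ℕ → Fin k)} {hX : IsSubshift X} (f g : Aut hX)
    (x : X) : f.map (g.map (shiftOn hX x)) = shiftOn hX (f.map (g.map x)) := by
  rw [g.map_comm, f.map_comm]

theorem Aut.inv_comm_shift {k : ℕ} {X : Set (ℕ → Fin k)} {hX : IsSubshift X} (f : Aut hX)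
    (x : X) : f.toHomeo.symm (shiftOn hX x) = shiftOn hX (f.toHomeo.symm x) := by
  apply f.toHomeo.injective
  rw [f.comm]
  simp

/-- Composition of automorphisms: first g, then f. -/
instance {k : ℕ} {X : Set (ℕ → Fin k)} {hX : IsSubshift X} : Mul (Aut hX) :=
  ⟨fun f g => ⟨g.toHomeo.trans f.toHomeo, Aut.mul_comm_shift f g⟩⟩

/-- The identity automorphism. -/
instance {k : ℕ} {X : Set (ℕ → Fin k)} {hX : IsSubshift X} : One (Aut hX) :=
  ⟨⟨Homeomorph.refl X, fun _ => rfl⟩⟩

/-- The inverse automorphism. -/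
instance {k : ℕ} {X : Set (ℕ → Fin k)} {hX : IsSubshift X} : Inv (Aut hX) :=
  ⟨fun f => ⟨f.toHomeo.symm, Aut.inv_comm_shift f⟩⟩

/-- The automorphism group. -/
instance {k : ℕ} {X : Set (ℕ → Fin k)} {hX : IsSubshift X} : Group (Aut hX) :=
  Group.ofLeftAxioms (fun _ _ _ => rfl) (fun _ => rfl)
    (fun f => Aut.ext_map fun x => f.toHomeo.symm_apply_apply x)

/-- The word norm of x with respect to a finite set S: the least length of a product of elements of
S and their inverses which is equal to x. -/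
noncomputable def wordNorm {G : Type} [Group G] (S : Finset G) (x : G) : ℕ :=
  sInf {n | ∃ l : List G, l.length = n ∧ (∀ s ∈ l, s ∈ S ∨ s⁻¹ ∈ S) ∧ l.prod = x}

/-- Distortion elements: elements of infinite order in the subgroup generated by a finite set for
which the word norm of the n-th power is o(n). -/
def IsDistortion {G : Type} [Group G] (g : G) : Prop :=
  ¬ IsOfFinOrder g ∧ ∃ S : Finset G, g ∈ Subgroup.closure (S : Set G) ∧
    Tendsto (fun n : ℕ => (wordNorm S (g ^ n) : ℝ) / n) atTop (𝓝 0)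

/-- The radius: the least r such that the i-th coordinate of the image of x depends only on the
coordinates i, ..., i + r of x. -/
noncomputable def radius {k : ℕ} {X : Set (ℕ → Fin k)} (f : X → X) : ℕ :=
  sInf {r | ∀ (x y : X) (i : ℕ), (∀ j ≤ r, x.1 (i + j) = y.1 (i + j)) → (f x).1 i = (f y).1 i}

/-- The word norms of the powers of g are at most C n^a. -/
def WordBound {G : Type} [Group G] (S : Finset G) (g : G) (C a : ℝ) : Prop :=
  ∀ n : ℕ, (wordNorm S (g ^ n) : ℝ) ≤ C * (n : ℝ) ^ a

/-- The radii of the powers of g are at most C n^a. -/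
def RadiusBound {k : ℕ} {X : Set (ℕ → Fin k)} {hX : IsSubshift X} (g : Aut hX) (C a : ℝ) :
    Prop :=
  ∀ n : ℕ, (radius (g ^ n).map : ℝ) ≤ C * (n : ℝ) ^ a

/-- The exponent. -/
noncomputable def expo : ℝ := Real.log 348 / Real.log 354

theorem expo_lt_one : expo < 1 := by
  unfold expo
  rw [div_lt_one (Real.log_pos (by norm_num))]
  exact Real.log_lt_log (by norm_num) (by norm_num)

theorem expo_pos : 0 < expo := div_pos (Real.log_pos (by norm_num)) (Real.log_pos (by norm_num))

theorem base_expo : (354 : ℝ) ^ expo = 348 := by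
  unfold expo
  rw [Real.rpow_def_of_pos (by norm_num), mul_div_cancel₀ _ (Real.log_pos (by norm_num)).ne',
    Real.exp_log (by norm_num)]

theorem digits {G : Type} [Group G] {S : Set G} {g : G} {M K B : ℕ} (hB : 2 ≤ B)
    (h : ∀ j, Wd S (K * B ^ j) (g ^ (M ^ j))) (hM : 0 < M) (J : ℕ) :
    ∀ n, n < M ^ (J + 1) → Wd S (2 * M * K * B ^ J) (g ^ n) := by
  have hg1 : Wd S K g := by simpa using h 0
  induction J with
  | zero =>
    intro n hn
    refine (hg1.pow n).mono ?_
    have : n ≤ M := by simpa using hn.le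
    calc n * K ≤ M * K := Nat.mul_le_mul_right _ this
      _ ≤ 2 * M * K * B ^ 0 := by rw [pow_zero, mul_one, mul_assoc]; omega
  | succ J ih =>
    intro n hn
    have hq : n / M ^ (J + 1) < M := by
      rw [Nat.div_lt_iff_lt_mul (pow_pos hM _)]
      rw [pow_succ] at hn
      rwa [mul_comm] at hn
    have e : g ^ n = (g ^ M ^ (J + 1)) ^ (n / M ^ (J + 1)) * g ^ (n % M ^ (J + 1)) := by
      rw [← pow_mul, ← pow_add, Nat.div_add_mod]
    rw [e]
    refine (((h (J + 1)).pow _).mul (ih _ (Nat.mod_lt _ (pow_pos hM _)))).mono ?_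
    have h1 : n / M ^ (J + 1) * (K * B ^ (J + 1)) ≤ M * (K * B ^ (J + 1)) :=
      Nat.mul_le_mul_right _ hq.le
    have h2 : 2 * M * K * B ^ J ≤ M * K * B ^ (J + 1) := by
      calc 2 * M * K * B ^ J = M * K * (2 * B ^ J) := by ring
        _ ≤ M * K * (B * B ^ J) := Nat.mul_le_mul_left _ (Nat.mul_le_mul_right _ hB)
        _ = M * K * B ^ (J + 1) := by ring
    calc _ ≤ M * (K * B ^ (J + 1)) + M * K * B ^ (J + 1) := add_le_add h1 h2
      _ = 2 * M * K * B ^ (J + 1) := by ring

theorem G0_bound (n : ℕ) (hn : 0 < n) :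
    ∃ L : ℕ, Wd GS L (G0 ^ n) ∧ (L : ℝ) ≤ (2 * 354 * (3 + 12 * 64)) * (n : ℝ) ^ expo := by
  have h := digits (S := GS) (g := G0) (M := 354) (K := 3 + 12 * 64) (B := 348) (by norm_num)
    G0_len (by norm_num) (Nat.log 354 n) n (Nat.lt_pow_succ_log_self (by norm_num) n)
  refine ⟨_, h, ?_⟩
  have h1 : (354 : ℕ) ^ Nat.log 354 n ≤ n := Nat.pow_log_le_self 354 hn.ne'
  have h2 : ((354 : ℝ) ^ Nat.log 354 n) ≤ n := by exact_mod_cast h1
  have h3 : (348 : ℝ) ^ Nat.log 354 n ≤ (n : ℝ) ^ expo := by
    calc (348 : ℝ) ^ Nat.log 354 n = ((354 : ℝ) ^ Nat.log 354 n) ^ expo := by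
          rw [← base_expo, ← Real.rpow_natCast, ← Real.rpow_natCast, ← Real.rpow_mul (by norm_num),
            ← Real.rpow_mul (by norm_num), mul_comm]
      _ ≤ (n : ℝ) ^ expo := Real.rpow_le_rpow (by positivity) h2 expo_pos.le
  push_cast
  nlinarith [h3]

/-- The radius is at most r. -/
def Rad {k : ℕ} {X : Set (ℕ → Fin k)} (r : ℕ) (f : X → X) : Prop :=
  ∀ (x y : X) (i : ℕ), (∀ j ≤ r, x.1 (i + j) = y.1 (i + j)) → (f x).1 i = (f y).1 i

theorem Rad.comp {k : ℕ} {X : Set (ℕ → Fin k)} {a b : ℕ} {f g : X → X} (hf : Rad a f)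
    (hg : Rad b g) : Rad (a + b) (f ∘ g) := by
  intro x y i h
  refine hf _ _ i fun j hj => hg _ _ (i + j) fun t ht => ?_
  have := h (j + t) (by omega)
  rwa [← add_assoc] at this

theorem Rad.radius_le {k : ℕ} {X : Set (ℕ → Fin k)} {r : ℕ} {f : X → X} (hf : Rad r f) :
    radius f ≤ r := Nat.sInf_le hf

section Transfer

variable {U Lb : Type} {N : ℕ} {e : Lb ≃ Fin N} {label : U → ℕ → Lb}

theorem lift_rad (φ : Equiv.Perm U) (F : Lb → Lb → Lb → Lb → Lb)
    (h : ∀ u q, label (φ u) q = F (label u q) (label u (q - 1)) (label u (q - 2))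
      (label u (q - 3))) {p : Equiv.Perm (XX e label)} (hp : IsLift e label φ p) : Rad 3 p := by
  have key : ∀ x : XX e label, (p x).1 = blk e F x.1 := by
    have h1 : (fun x : XX e label => (p x).1) = fun x => blk e F x.1 := by
      refine Continuous.ext_on (dense_pt e label) (continuous_subtype_val.comp hp.1)
        ((blk_cont e F).comp continuous_subtype_val) ?_
      rintro x ⟨n, u, rfl⟩
      change (p (ptX e label n u)).1 = blk e F (pt e label n u)
      rw [hp.2.2, blk_pt e label F φ h]
      rfl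
    exact fun x => congrFun h1 x
  intro x y i hxy
  rw [key, key]
  unfold blk
  have h0 := hxy 0 (by omega)
  have h1 := hxy 1 (by omega)
  have h2 := hxy 2 (by omega)
  have h3 := hxy 3 (by omega)
  rw [add_zero] at h0
  rw [h0, h1, h2, h3]

/-- The subshift of the construction is a subshift. -/
theorem XX_sub [Nonempty U] : IsSubshift (XX e label) where
  nonempty := ⟨pt e label 0 (Classical.arbitrary U), pt_mem e label _ _⟩
  closed := isClosed_closure
  shift_mem := fun x hx => shift_mem e label x hx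

theorem XX_surj : shift '' XX e label = XX e label := by
  apply Set.Subset.antisymm
  · rintro _ ⟨x, hx, rfl⟩
    exact shift_mem e label x hx
  · have hc : Continuous (shift : (ℕ → Fin N) → ℕ → Fin N) :=
      continuous_pi fun i => continuous_apply (i + 1)
    have h1 : IsClosed (shift '' XX e label) :=
      ((isClosed_closure (s := {x | ∃ n u, x = pt e label n u})).isCompact.image hc).isClosed
    refine closure_minimal ?_ h1
    rintro x ⟨n, u, rfl⟩
    refine ⟨pt e label (n + 1) u, pt_mem e label _ _, ?_⟩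
    have := shift_pt e label (n + 1) u
    rw [Nat.add_sub_cancel] at this
    exact this

instance [Nonempty U] : CompactSpace (XX e label) :=
  isCompact_iff_compactSpace.1 (isClosed_closure (s := {x | ∃ n u, x = pt e label n u})).isCompact

/-- An automorphism of the subshift acts on the points as φ. -/
def IsL [Nonempty U] (φ : Equiv.Perm U) (a : Aut (XX_sub (e := e) (label := label))) : Prop :=
  IsLift e label φ a.1.toEquiv

variable [Nonempty U]

theorem IsL.one : IsL (e := e) (label := label) 1 1 := IsLift.one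

theorem IsL.mul {φ ψ : Equiv.Perm U} {a b : Aut (XX_sub (e := e) (label := label))}
    (ha : IsL φ a) (hb : IsL ψ b) : IsL (φ * ψ) (a * b) := IsLift.mul ha hb

theorem IsL.unique {φ : Equiv.Perm U} {a b : Aut (XX_sub (e := e) (label := label))}
    (ha : IsL φ a) (hb : IsL φ b) : a = b := by
  have h := IsLift.unique ha hb
  exact Aut.ext_map fun x => congrArg (fun p : Equiv.Perm (XX e label) => p x) h

theorem IsL.exists {φ : Equiv.Perm U} {p : Equiv.Perm (XX e label)} (h : IsLift e label φ p) :
    ∃ a : Aut (XX_sub (e := e) (label := label)), IsL φ a := by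
  refine ⟨⟨h.1.homeoOfEquivCompactToT2, ?_⟩, ?_⟩
  · intro x
    apply Subtype.ext
    exact h.2.1 x (shiftOn XX_sub x) rfl
  · exact h

end Transfer

theorem rad_list {k : ℕ} {X : Set (ℕ → Fin k)} {hX : IsSubshift X} {r : ℕ} (l : List (Aut hX))
    (h : ∀ a ∈ l, Rad r a.map) : Rad (r * l.length) (l.prod : Aut hX).map := by
  induction l with
  | nil =>
    intro x y i hxy
    exact hxy 0 (by simp)
  | cons a l ih =>
    have h1 := (h a (by simp)).comp (ih fun b hb => h b (by simp [hb]))
    rw [List.prod_cons, List.length_cons]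
    have e : r + r * l.length = r * (l.length + 1) := by ring
    rw [e] at h1
    exact h1

theorem wordNorm_le {G : Type} [Group G] {S : Finset G} {x : G} {n : ℕ}
    (h : ∃ l : List G, l.length ≤ n ∧ (∀ s ∈ l, s ∈ S) ∧ l.prod = x) : wordNorm S x ≤ n := by
  obtain ⟨l, h1, h2, h3⟩ := h
  have h4 : l.length ∈ {n | ∃ l : List G, l.length = n ∧ (∀ s ∈ l, s ∈ S ∨ s⁻¹ ∈ S) ∧
      l.prod = x} := ⟨l, rfl, fun s hs => Or.inl (h2 s hs), h3⟩
  exact (Nat.sInf_le h4).trans h1

/-- The transfer theorem in the group of automorphisms. -/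
theorem transferA {U Lb : Type} [Finite Lb] [Nonempty U] (label : U → ℕ → Lb)
    (hinj : ∀ u v, (∀ q, label u q = label v q) → u = v)
    (S : Set (Equiv.Perm U)) (hSfin : S.Finite) (hSinv : ∀ s ∈ S, s⁻¹ ∈ S)
    (hrule : ∀ s ∈ S, ∃ F : Lb → Lb → Lb → Lb → Lb, ∀ u q, label (s u) q =
      F (label u q) (label u (q - 1)) (label u (q - 2)) (label u (q - 3)))
    (g : Equiv.Perm U) (hgS : ∃ l : List (Equiv.Perm U), (∀ s ∈ l, s ∈ S) ∧ l.prod = g)
    (hginf : ∀ n, 0 < n → g ^ n ≠ 1) :
    ∃ (k : ℕ) (X : Set (ℕ → Fin k)) (hX : IsSubshift X) (g' : Aut hX) (S' : Finset (Aut hX)),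
      2 ≤ k ∧ shift '' X = X ∧ ¬ IsOfFinOrder g' ∧ g' ∈ Subgroup.closure (S' : Set (Aut hX)) ∧
      ∀ n L : ℕ, Wd S L (g ^ n) → wordNorm S' (g' ^ n) ≤ L ∧ radius (g' ^ n).map ≤ 3 * L := by
  classical
  obtain ⟨N, ⟨e⟩⟩ := Finite.exists_equiv_fin Lb
  have hlift : ∀ s ∈ S, ∃ a : Aut (XX_sub (e := e) (label := label)), IsL s a ∧ Rad 3 a.map := by
    intro s hs
    obtain ⟨F, hF⟩ := hrule s hs
    obtain ⟨F', hF'⟩ := hrule s⁻¹ (hSinv s hs)
    obtain ⟨p, hp⟩ := IsLift.exists s F F' hF hF'
    obtain ⟨a, ha⟩ := IsL.exists hp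
    exact ⟨a, ha, lift_rad s F hF ha⟩
  choose! lft hlft using hlift
  have key : ∀ l : List (Equiv.Perm U), (∀ s ∈ l, s ∈ S) → IsL l.prod (l.map lft).prod := by
    intro l
    induction l with
    | nil => intro _; exact IsL.one
    | cons a l ih =>
      intro h
      rw [List.prod_cons, List.map_cons, List.prod_cons]
      exact (hlft a (h a (by simp))).1.mul (ih fun s hs => h s (by simp [hs]))
  obtain ⟨lg, hlg, hlgp⟩ := hgS
  have hg' := key lg hlg
  rw [hlgp] at hg'
  set g' := (lg.map lft).prod with hg'def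
  have hpow : ∀ n : ℕ, IsL (g ^ n) (g' ^ n) := by
    intro n
    induction n with
    | zero => exact IsL.one
    | succ n ih => rw [pow_succ, pow_succ]; exact ih.mul hg'
  have hinf : ¬ IsOfFinOrder g' := by
    intro hfin
    rw [isOfFinOrder_iff_pow_eq_one] at hfin
    obtain ⟨n, hn, hgn⟩ := hfin
    apply hginf n hn
    have h1 := hpow n
    rw [hgn] at h1
    ext u : 1
    apply hinj
    intro q
    have h2 : ptX e label q u = ptX e label q ((g ^ n) u) := h1.2.2 q u
    have h3 : pt e label q u 0 = pt e label q ((g ^ n) u) 0 := by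
      have h4 := congrArg Subtype.val h2
      exact congrFun h4 0
    unfold pt at h3
    have h5 := e.injective h3
    rw [Equiv.Perm.one_apply]
    simpa using h5.symm
  refine ⟨N, XX e label, XX_sub, g', hSfin.toFinset.image lft, ?_, XX_surj, hinf, ?_, ?_⟩
  · by_contra hN
    apply hinf
    have hs : Subsingleton (Fin N) := Fin.subsingleton_iff_le_one.2 (by omega)
    have : g' = 1 := by
      refine Aut.ext_map fun x => Subtype.ext (funext fun i => Subsingleton.elim _ _)
    rw [this]
    exact IsOfFinOrder.one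
  · refine Subgroup.list_prod_mem _ ?_
    intro a ha
    rw [List.mem_map] at ha
    obtain ⟨s, hs, rfl⟩ := ha
    apply Subgroup.subset_closure
    rw [Finset.mem_coe, Finset.mem_image]
    exact ⟨s, (Set.Finite.mem_toFinset hSfin).2 (hlg s hs), rfl⟩
  · rintro n L ⟨l, hl1, hl2, hl3⟩
    have h1 := key l hl2
    rw [hl3] at h1
    have h2 : (l.map lft).prod = g' ^ n := h1.unique (hpow n)
    constructor
    · refine wordNorm_le ⟨l.map lft, by simpa using hl1, ?_, h2⟩
      intro a ha
      rw [List.mem_map] at ha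
      obtain ⟨s, hs, rfl⟩ := ha
      rw [Finset.mem_image]
      exact ⟨s, (Set.Finite.mem_toFinset hSfin).2 (hl2 s hs), rfl⟩
    · have h3 : Rad (3 * (l.map lft).length) ((l.map lft).prod).map := by
        refine rad_list _ ?_
        intro a ha
        rw [List.mem_map] at ha
        obtain ⟨s, hs, rfl⟩ := ha
        exact (hlft s (hl2 s hs)).2
      rw [h2, List.length_map] at h3
      exact h3.radius_le.trans (by omega)

/-- There are a finite alphabet with at least two letters, a one-sided subshift X with surjective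
shift, an automorphism g of X which is a distortion element of the automorphism group of X, a finite
set S of automorphisms generating a subgroup which contains g, and a constant C such that for all n
the word norm of g^n with respect to S and the radius of g^n are at most C n^α with
α = log 348 / log 354 < 1. -/
theorem result :
    ∃ (k : ℕ) (X : Set (ℕ → Fin k)) (hX : IsSubshift X) (g : Aut hX) (S : Finset (Aut hX))
      (C : ℝ), 2 ≤ k ∧ shift '' X = X ∧ IsDistortion g ∧ g ∈ Subgroup.closure (S : Set (Aut hX)) ∧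
      WordBound S g C expo ∧ RadiusBound g C expo ∧ expo < 1 := by
  have hg : ∃ l : List (Equiv.Perm (ℕ → AA)), (∀ s ∈ l, s ∈ GS) ∧ l.prod = G0 := by
    obtain ⟨l, _, h2, h3⟩ := G0_word
    exact ⟨l, h2, h3⟩
  have : Nonempty (ℕ → AA) := ⟨fun _ => (0, 0)⟩
  obtain ⟨k, X, hX, g, S, hk, hsurj, hinf, hgS, hb⟩ :=
    transferA LL (fun u v h => label_inj h) GS Gen_finite GS_inv GS_rule G0 hg G0_ne_one
  have hbound : ∀ n : ℕ, (wordNorm S (g ^ n) : ℝ) ≤ 3 * (2 * 354 * (3 + 12 * 64)) * (n : ℝ) ^ expo ∧
        (radius (g ^ n).map : ℝ) ≤ 3 * (2 * 354 * (3 + 12 * 64)) * (n : ℝ) ^ expo := by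
    intro n
    rcases Nat.eq_zero_or_pos n with rfl | hn
    · have h0 := hb 0 0 (by simpa using Wd.one GS)
      have h1 : wordNorm S (g ^ 0) = 0 := by omega
      have h2 : radius (g ^ 0).map = 0 := by omega
      rw [h1, h2]
      simp only [Nat.cast_zero, Real.zero_rpow expo_pos.ne', mul_zero]
      exact ⟨le_rfl, le_rfl⟩
    · obtain ⟨L, hL, hL2⟩ := G0_bound n hn
      obtain ⟨h1, h2⟩ := hb n L hL
      have h1' : (wordNorm S (g ^ n) : ℝ) ≤ L := by exact_mod_cast h1
      have h2' : (radius (g ^ n).map : ℝ) ≤ 3 * L := by exact_mod_cast h2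
      have h3 : (0 : ℝ) ≤ (n : ℝ) ^ expo := by positivity
      constructor
      · calc _ ≤ (L : ℝ) := h1'
          _ ≤ _ := hL2
          _ ≤ _ := by nlinarith
      · calc _ ≤ 3 * (L : ℝ) := h2'
          _ ≤ 3 * ((2 * 354 * (3 + 12 * 64)) * (n : ℝ) ^ expo) := by linarith
          _ = _ := by ring
  refine ⟨k, X, hX, g, S, _, hk, hsurj, ⟨hinf, S, hgS, ?_⟩, hgS, fun n => (hbound n).1,
    fun n => (hbound n).2, expo_lt_one⟩
  set C : ℝ := 3 * (2 * 354 * (3 + 12 * 64)) with hC
  have hlim : Tendsto (fun n : ℕ => C * (n : ℝ) ^ (-(1 - expo))) atTop (𝓝 (C * 0)) := by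
    refine Tendsto.const_mul _ ?_
    exact (tendsto_rpow_neg_atTop (by linarith [expo_lt_one])).comp tendsto_natCast_atTop_atTop
  rw [mul_zero] at hlim
  refine squeeze_zero' (Eventually.of_forall fun n => by positivity) ?_ hlim
  filter_upwards [eventually_gt_atTop 0] with n hn
  have hn' : (0 : ℝ) < n := by exact_mod_cast hn
  have h1 := (hbound n).1
  rw [div_le_iff₀ hn']
  have h2 : (n : ℝ) ^ (-(1 - expo)) * n = (n : ℝ) ^ expo := by
    nth_rewrite 2 [← Real.rpow_one (n : ℝ)]
    rw [← Real.rpow_add hn']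
    congr 1
    ring
  rw [mul_assoc, h2]
  exact h1

end Pool.Agent.Results.MP_e59edf_an.PowerDistortion
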